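import Mathlib

/-!
Definitions for MP_981e77_lc (finite templates for AIP-solvability of PCSP(1in3, B)).
-/

namespace Pool.Agent.H127_AIP

/-- A structure: a set with one ternary relation (a set of triples). -/
structure Ternary where
  /-- the domain -/
  dom : Type
  /-- the ternary relation -/
  rel : Set (Fin 3 → dom)

/-- `HomTo X B`: there is a homomorphism from `X` to `B`. -/
def HomTo (X B : Ternary) : Prop :=
  ∃ f : X.dom → B.dom, ∀ t ∈ X.rel, (fun i => f (t i)) ∈ B.rel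

/-- The product of two structures. -/
def Ternary.prod (X Y : Ternary) : Ternary where
  dom := X.dom × Y.dom
  rel := {t | (fun i => (t i).1) ∈ X.rel ∧ (fun i => (t i).2) ∈ Y.rel}

/-- The structure `1in3`. -/
def oneInThree : Ternary where
  dom := Fin 2
  rel := {![1, 0, 0], ![0, 1, 0], ![0, 0, 1]}

/-- The structure `NAE`. -/
def nae : Ternary where
  dom := Fin 2
  rel := {t | t ≠ ![0, 0, 0] ∧ t ≠ ![1, 1, 1]}

/-- The structure `E_m`: domain `{0, …, m - 1}`, with `x + y + z ≡ 1` modulo `m`. -/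
def E (m : ℕ) : Ternary where
  dom := Fin m
  rel := {t | (t 0 : ℕ) + (t 1 : ℕ) + (t 2 : ℕ) ≡ 1 [MOD m]}

/-- The affine integer programming relaxation of the instance `X` of `CSP(A)` has an integer solution:
integers `lam x a` and `mu t s` (for tuples `t` of `X` and `s` of `A`) with `∑ a, lam x a = 1`,
`∑ s, mu t s = 1` and `lam (t i) a = ∑ (s with s i = a), mu t s` for each coordinate `i`. -/
def AIPAccepts (A X : Ternary) : Prop :=
  ∃ (lam : X.dom → A.dom → ℤ) (mu : X.rel → A.rel → ℤ),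
    (∀ x, ∑ᶠ a, lam x a = 1) ∧
    (∀ t, ∑ᶠ s, mu t s = 1) ∧
    (∀ (t : X.rel) (i : Fin 3) (a : A.dom), lam (t.1 i) a = ∑ᶠ (s : A.rel) (_ : s.1 i = a), mu t s)

/-- AIP solves `PCSP(A, B)`: every finite instance `X` accepted by AIP has a homomorphism to `B`. -/
def AIPSolves (A B : Ternary) : Prop :=
  ∀ X : Ternary, Finite X.dom → AIPAccepts A X → HomTo X B

/-- The infinite structure on `ℤ` with relation `x + y + z = 1`. -/
def intStr : Ternary where
  dom := ℤ
  rel := {t | t 0 + t 1 + t 2 = 1}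

theorem oneInThree_cases (s : oneInThree.rel) :
    (s.1 0 = (1 : Fin 2) ∧ ¬ s.1 1 = (1 : Fin 2) ∧ ¬ s.1 2 = (1 : Fin 2)) ∨
    (¬ s.1 0 = (1 : Fin 2) ∧ s.1 1 = (1 : Fin 2) ∧ ¬ s.1 2 = (1 : Fin 2)) ∨
    (¬ s.1 0 = (1 : Fin 2) ∧ ¬ s.1 1 = (1 : Fin 2) ∧ s.1 2 = (1 : Fin 2)) := by
  have h01 : ¬ ((0 : Fin 2) = 1) := by decide
  obtain ⟨s, hs⟩ := s
  rcases hs with rfl | rfl | rfl
  · exact Or.inl ⟨rfl, h01, h01⟩
  · exact Or.inr (Or.inl ⟨h01, rfl, h01⟩)
  · exact Or.inr (Or.inr ⟨h01, h01, rfl⟩)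

/-- A finite instance accepted by AIP for `1in3` maps to `(ℤ; x + y + z = 1)`. -/
theorem homTo_intStr (X : Ternary) (h : AIPAccepts oneInThree X) : HomTo X intStr := by
  obtain ⟨lam, mu, hlam, hmu, hmarg⟩ := h
  refine ⟨fun x => lam x (1 : Fin 2), ?_⟩
  intro t ht
  show lam (t 0) (1 : Fin 2) + lam (t 1) (1 : Fin 2) + lam (t 2) (1 : Fin 2) = 1
  have m0 := hmarg ⟨t, ht⟩ 0 (1 : Fin 2)
  have m1 := hmarg ⟨t, ht⟩ 1 (1 : Fin 2)
  have m2 := hmarg ⟨t, ht⟩ 2 (1 : Fin 2)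
  have hs := hmu ⟨t, ht⟩
  have : Finite oneInThree.rel := by
    have : Finite oneInThree.dom := inferInstanceAs (Finite (Fin 2))
    have : Finite (Fin 3 → oneInThree.dom) := inferInstance
    exact Subtype.finite
  classical
  have : Fintype oneInThree.rel := Fintype.ofFinite _
  simp only at m0 m1 m2
  rw [m0, m1, m2]
  rw [← hs]
  rw [finsum_eq_sum_of_fintype, finsum_eq_sum_of_fintype, finsum_eq_sum_of_fintype,
    finsum_eq_sum_of_fintype]
  rw [← Finset.sum_add_distrib, ← Finset.sum_add_distrib]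
  refine Finset.sum_congr rfl ?_
  intro s _
  rw [finsum_eq_if, finsum_eq_if, finsum_eq_if]
  rcases oneInThree_cases s with ⟨h0, h1, h2⟩ | ⟨h0, h1, h2⟩ | ⟨h0, h1, h2⟩
  · rw [if_pos h0, if_neg h1, if_neg h2]; ring
  · rw [if_neg h0, if_pos h1, if_neg h2]; ring
  · rw [if_neg h0, if_neg h1, if_pos h2]; ring

end Pool.Agent.H127_AIP
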