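import Mathlib

/-!
Local part of the refutation of the finite-witness conjecture for AIP and PCSP(1in3, B) (MP_981e77_lc).
-/

namespace Pool.Agent.H127_AIP

/-- The relation between the leading three ternary digits of three nonzero integers with sum zero. -/
def Hrel (x y z : ℤ) : Prop :=
  ∃ c : ℤ, (c = 1 ∨ c = 3 ∨ c = 9 ∨ c = 0) ∧
    ((27 : ℤ) ∣ x + y + c * z ∨ (27 : ℤ) ∣ x + z + c * y ∨ (27 : ℤ) ∣ y + z + c * x)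

theorem Hrel.swap {x y z : ℤ} (h : Hrel x y z) : Hrel x z y := by
  obtain ⟨c, hc, h | h | h⟩ := h
  · exact ⟨c, hc, Or.inr (Or.inl h)⟩
  · exact ⟨c, hc, Or.inl h⟩
  · refine ⟨c, hc, Or.inr (Or.inr ?_)⟩
    have : z + y + c * x = y + z + c * x := by ring
    rwa [this]

theorem Hrel.same1 {x y z : ℤ} (h : Hrel x y z) (hx : x % 3 = 1) (hy : y % 3 = 1) (hz : z % 3 = 1) :
    (27 : ℤ) ∣ x + y + z := by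
  obtain ⟨c, rfl | rfl | rfl | rfl, h | h | h⟩ := h <;> omega

theorem Hrel.same2 {x y z : ℤ} (h : Hrel x y z) (hx : x % 3 = 2) (hy : y % 3 = 2) (hz : z % 3 = 2) :
    (27 : ℤ) ∣ x + y + z := by
  obtain ⟨c, rfl | rfl | rfl | rfl, h | h | h⟩ := h <;> omega

/-- The possible relations when `x`, `y` cancel to first order. -/
def G (x y z : ℤ) : Prop :=
  (27 : ℤ) ∣ x + y + 3 * z ∨ (27 : ℤ) ∣ x + y + 9 * z ∨ (27 : ℤ) ∣ x + y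

/-- Bad alternatives. -/
theorem Hrel.alt {x y z : ℤ} (h : Hrel x y z) (hx : x % 3 = 1) (hy : y % 3 = 2) :
    G x y z ∨ (27 : ℤ) ∣ x + z + 3 * y ∨ (27 : ℤ) ∣ x + z + 9 * y ∨ (27 : ℤ) ∣ x + z ∨
    (27 : ℤ) ∣ y + z + 3 * x ∨ (27 : ℤ) ∣ y + z + 9 * x ∨ (27 : ℤ) ∣ y + z ∨ (3 : ℤ) ∣ z := by
  unfold G
  obtain ⟨c, rfl | rfl | rfl | rfl, h | h | h⟩ := h <;> omega

theorem key {x y z x1 y1 x2 y2 : ℤ} (hx : x % 3 = 1) (hy : y % 3 = 2) (hz : ¬ (3 : ℤ) ∣ z)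
    (hx1 : (27 : ℤ) ∣ x1 - x - 9) (hy1 : (27 : ℤ) ∣ y1 - y + 9)
    (hx2 : (27 : ℤ) ∣ x2 - x - 18) (hy2 : (27 : ℤ) ∣ y2 - y + 18)
    (h0 : Hrel x y z) (h1 : Hrel x1 y1 z) (h2 : Hrel x2 y2 z) : G x y z := by
  have a0 := h0.alt hx hy
  have a1 := h1.alt (by omega) (by omega)
  have a2 := h2.alt (by omega) (by omega)
  unfold G at *
  by_contra hG
  have b0 : (27 : ℤ) ∣ x + z + 3 * y ∨ (27 : ℤ) ∣ x + z + 9 * y ∨ (27 : ℤ) ∣ x + z ∨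
    (27 : ℤ) ∣ y + z + 3 * x ∨ (27 : ℤ) ∣ y + z + 9 * x ∨ (27 : ℤ) ∣ y + z := by omega
  have b1 : (27 : ℤ) ∣ x1 + z + 3 * y1 ∨ (27 : ℤ) ∣ x1 + z + 9 * y1 ∨ (27 : ℤ) ∣ x1 + z ∨
    (27 : ℤ) ∣ y1 + z + 3 * x1 ∨ (27 : ℤ) ∣ y1 + z + 9 * x1 ∨ (27 : ℤ) ∣ y1 + z := by omega
  have b2 : (27 : ℤ) ∣ x2 + z + 3 * y2 ∨ (27 : ℤ) ∣ x2 + z + 9 * y2 ∨ (27 : ℤ) ∣ x2 + z ∨
    (27 : ℤ) ∣ y2 + z + 3 * x2 ∨ (27 : ℤ) ∣ y2 + z + 9 * x2 ∨ (27 : ℤ) ∣ y2 + z := by omega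
  clear a0 a1 a2 h0 h1 h2 hG
  rcases b0 with b0 | b0 | b0 | b0 | b0 | b0 <;> rcases b1 with b1 | b1 | b1 | b1 | b1 | b1 <;>
    rcases b2 with b2 | b2 | b2 | b2 | b2 | b2 <;> omega

end Pool.Agent.H127_AIP
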