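import Mathlib
import Pool.Agent.H127_AIP.Local

/-!
Descent step for the refutation of the finite-witness conjecture (MP_981e77_lc).
-/

namespace Pool.Agent.H127_AIP

/-- A pair of functions colouring the neighbourhoods of the two special points. -/
structure Good (A B : ℤ → Bool → ℤ) : Prop where
  unitA : ∀ i s, ¬ (3 : ℤ) ∣ A i s
  unitB : ∀ i s, ¬ (3 : ℤ) ∣ B i s
  liftA : ∀ i s, ¬ (3 : ℤ) ∣ i → (9 : ℤ) ∣ A i s - i
  liftB : ∀ i s, ¬ (3 : ℤ) ∣ i → (9 : ℤ) ∣ B i s - i
  rel : ∀ i j l s t r, i + j + l = 0 → ¬ (s = t ∧ t = r) → Hrel (A i s) (A j t) (B l r)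

namespace Good

variable {A B : ℤ → Bool → ℤ} (h : Good A B)

include h

theorem sum1 (i j l : ℤ) (s t r : Bool) (hi : i % 3 = 1) (hj : j % 3 = 1) (hs : i + j + l = 0)
    (hn : ¬ (s = t ∧ t = r)) : (27 : ℤ) ∣ A i s + A j t + B l r := by
  have h1 := h.liftA i s (by omega)
  have h2 := h.liftA j t (by omega)
  have h3 := h.liftB l r (by omega)
  exact (h.rel i j l s t r hs hn).same1 (by omega) (by omega) (by omega)

theorem sum2 (i j l : ℤ) (s t r : Bool) (hi : i % 3 = 2) (hj : j % 3 = 2) (hs : i + j + l = 0)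
    (hn : ¬ (s = t ∧ t = r)) : (27 : ℤ) ∣ A i s + A j t + B l r := by
  have h1 := h.liftA i s (by omega)
  have h2 := h.liftA j t (by omega)
  have h3 := h.liftB l r (by omega)
  exact (h.rel i j l s t r hs hn).same2 (by omega) (by omega) (by omega)

/-- Sign independence. -/
theorem signA (i : ℤ) (s : Bool) (hi : ¬ (3 : ℤ) ∣ i) : (27 : ℤ) ∣ A i s - A i true := by
  cases s with
  | true => simp
  | false =>
    rcases (by omega : i % 3 = 1 ∨ i % 3 = 2) with hi | hi
    · have h1 := h.sum1 i 1 (-i - 1) false false true hi (by norm_num) (by ring) (by simp)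
      have h2 := h.sum1 i 1 (-i - 1) true false true hi (by norm_num) (by ring) (by simp)
      omega
    · have h1 := h.sum2 i (-1) (-i + 1) false false true hi (by norm_num) (by ring) (by simp)
      have h2 := h.sum2 i (-1) (-i + 1) true false true hi (by norm_num) (by ring) (by simp)
      omega

theorem signB (l : ℤ) (s : Bool) (hl : ¬ (3 : ℤ) ∣ l) : (27 : ℤ) ∣ B l s - B l true := by
  cases s with
  | true => simp
  | false =>
    rcases (by omega : l % 3 = 1 ∨ l % 3 = 2) with hl | hl
    · have h1 := h.sum1 1 (-l - 1) l true false false (by norm_num) (by omega) (by ring) (by simp)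
      have h2 := h.sum1 1 (-l - 1) l true false true (by norm_num) (by omega) (by ring) (by simp)
      omega
    · have h1 := h.sum2 (-1) (-l + 1) l true false false (by norm_num) (by omega) (by ring) (by simp)
      have h2 := h.sum2 (-1) (-l + 1) l true false true (by norm_num) (by omega) (by ring) (by simp)
      omega

theorem tsum1 (i j l : ℤ) (hi : i % 3 = 1) (hj : j % 3 = 1) (hs : i + j + l = 0) :
    (27 : ℤ) ∣ A i true + A j true + B l true := by
  have h1 := h.sum1 i j l true true false hi hj hs (by simp)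
  have h2 := h.signB l false (by omega)
  omega

theorem tsum2 (i j l : ℤ) (hi : i % 3 = 2) (hj : j % 3 = 2) (hs : i + j + l = 0) :
    (27 : ℤ) ∣ A i true + A j true + B l true := by
  have h1 := h.sum2 i j l true true false hi hj hs (by simp)
  have h2 := h.signB l false (by omega)
  omega

theorem diff1 (i j : ℤ) (hi : i % 3 = 1) (hj : j % 3 = 1) :
    (27 : ℤ) ∣ A (i + 3) true - A i true - (A (j + 3) true - A j true) := by
  have h1 := h.tsum1 (i + 3) j (-i - j - 3) (by omega) hj (by ring)
  have h2 := h.tsum1 i (j + 3) (-i - j - 3) hi (by omega) (by ring)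
  omega

theorem diff2 (i j : ℤ) (hi : i % 3 = 2) (hj : j % 3 = 2) :
    (27 : ℤ) ∣ A (i + 3) true - A i true - (A (j + 3) true - A j true) := by
  have h1 := h.tsum2 (i + 3) j (-i - j - 3) (by omega) hj (by ring)
  have h2 := h.tsum2 i (j + 3) (-i - j - 3) hi (by omega) (by ring)
  omega

theorem shift9 (i : ℤ) (hi : ¬ (3 : ℤ) ∣ i) : (27 : ℤ) ∣ A (i + 9) true - A i true - 9 := by
  have hl := h.liftA i true hi
  have hl3 := h.liftA (i + 3) true (by omega)
  have e1 : i + 3 + 3 = i + 6 := by ring
  have e2 : i + 6 + 3 = i + 9 := by ring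
  rcases (by omega : i % 3 = 1 ∨ i % 3 = 2) with hi | hi
  · have h1 := h.diff1 (i + 3) i (by omega) hi
    have h2 := h.diff1 (i + 6) i (by omega) hi
    rw [e1] at h1
    rw [e2] at h2
    omega
  · have h1 := h.diff2 (i + 3) i (by omega) hi
    have h2 := h.diff2 (i + 6) i (by omega) hi
    rw [e1] at h1
    rw [e2] at h2
    omega

theorem shift9B (l : ℤ) (hl : ¬ (3 : ℤ) ∣ l) : (27 : ℤ) ∣ B (l + 9) true - B l true - 9 := by
  rcases (by omega : l % 3 = 1 ∨ l % 3 = 2) with hl | hl
  · have h1 := h.tsum1 1 (-l - 1) l (by norm_num) (by omega) (by ring)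
    have h2 := h.tsum1 1 (-l - 10) (l + 9) (by norm_num) (by omega) (by ring)
    have h3 := h.shift9 (-l - 10) (by omega)
    have e : -l - 10 + 9 = -l - 1 := by ring
    rw [e] at h3
    omega
  · have h1 := h.tsum2 (-1) (-l + 1) l (by norm_num) (by omega) (by ring)
    have h2 := h.tsum2 (-1) (-l - 8) (l + 9) (by norm_num) (by omega) (by ring)
    have h3 := h.shift9 (-l - 8) (by omega)
    have e : -l - 8 + 9 = -l + 1 := by ring
    rw [e] at h3
    omega

theorem gAAB (i j l : ℤ) (r : Bool) (hi : i % 3 = 1) (hj : j % 3 = 2) (hs : i + j + l = 0) :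
    G (A i true) (A j true) (B l r) := by
  have hx := h.liftA i (!r) (by omega)
  have hy := h.liftA j (!r) (by omega)
  have key0 : G (A i (!r)) (A j (!r)) (B l r) := by
    have s1 := h.shift9 i (by omega)
    have s2 := h.shift9 (i + 9) (by omega)
    have s3 := h.shift9 (j - 9) (by omega)
    have s4 := h.shift9 (j - 18) (by omega)
    have e1 : i + 9 + 9 = i + 18 := by ring
    have e2 : j - 9 + 9 = j := by ring
    have e3 : j - 18 + 9 = j - 9 := by ring
    rw [e1] at s2
    rw [e2] at s3
    rw [e3] at s4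
    have t1 := h.signA i (!r) (by omega)
    have t2 := h.signA j (!r) (by omega)
    have t3 := h.signA (i + 9) (!r) (by omega)
    have t4 := h.signA (i + 18) (!r) (by omega)
    have t5 := h.signA (j - 9) (!r) (by omega)
    have t6 := h.signA (j - 18) (!r) (by omega)
    have hn : ¬ ((!r) = (!r) ∧ (!r) = r) := by cases r <;> simp
    have r0 := h.rel i j l (!r) (!r) r hs hn
    have r1 := h.rel (i + 9) (j - 9) l (!r) (!r) r (by omega) hn
    have r2 := h.rel (i + 18) (j - 18) l (!r) (!r) r (by omega) hn
    exact key (x1 := A (i + 9) (!r)) (y1 := A (j - 9) (!r)) (x2 := A (i + 18) (!r))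
      (y2 := A (j - 18) (!r)) (by omega) (by omega) (h.unitB l r) (by omega) (by omega)
      (by omega) (by omega) r0 r1 r2
  have t1 := h.signA i (!r) (by omega)
  have t2 := h.signA j (!r) (by omega)
  unfold G at *
  omega

theorem gABA (i j l : ℤ) (r : Bool) (hi : i % 3 = 1) (hl : l % 3 = 2) (hs : i + j + l = 0) :
    G (A i true) (B l true) (A j r) := by
  have hx := h.liftA i (!r) (by omega)
  have hy := h.liftB l (!r) (by omega)
  have key0 : G (A i (!r)) (B l (!r)) (A j r) := by
    have s1 := h.shift9 i (by omega)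
    have s2 := h.shift9 (i + 9) (by omega)
    have s3 := h.shift9B (l - 9) (by omega)
    have s4 := h.shift9B (l - 18) (by omega)
    have e1 : i + 9 + 9 = i + 18 := by ring
    have e2 : l - 9 + 9 = l := by ring
    have e3 : l - 18 + 9 = l - 9 := by ring
    rw [e1] at s2
    rw [e2] at s3
    rw [e3] at s4
    have t1 := h.signA i (!r) (by omega)
    have t2 := h.signB l (!r) (by omega)
    have t3 := h.signA (i + 9) (!r) (by omega)
    have t4 := h.signA (i + 18) (!r) (by omega)
    have t5 := h.signB (l - 9) (!r) (by omega)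
    have t6 := h.signB (l - 18) (!r) (by omega)
    have hn : ¬ ((!r) = r ∧ r = (!r)) := by cases r <;> simp
    have r0 := (h.rel i j l (!r) r (!r) hs hn).swap
    have r1 := (h.rel (i + 9) j (l - 9) (!r) r (!r) (by omega) hn).swap
    have r2 := (h.rel (i + 18) j (l - 18) (!r) r (!r) (by omega) hn).swap
    exact key (x1 := A (i + 9) (!r)) (y1 := B (l - 9) (!r)) (x2 := A (i + 18) (!r))
      (y2 := B (l - 18) (!r)) (by omega) (by omega) (h.unitA j r) (by omega) (by omega)
      (by omega) (by omega) r0 r1 r2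
  have t1 := h.signA i (!r) (by omega)
  have t2 := h.signB l (!r) (by omega)
  unfold G at *
  omega

theorem gABA' (i j l : ℤ) (r : Bool) (hi : i % 3 = 2) (hl : l % 3 = 1) (hs : i + j + l = 0) :
    G (B l true) (A i true) (A j r) := by
  have hx := h.liftA i (!r) (by omega)
  have hy := h.liftB l (!r) (by omega)
  have hrel : ∀ {x y z : ℤ}, Hrel x y z → Hrel z x y := by
    rintro x y z ⟨c, hc, h | h | h⟩
    · refine ⟨c, hc, Or.inr (Or.inr ?_)⟩
      exact h
    · refine ⟨c, hc, Or.inl ?_⟩
      have : z + x + c * y = x + z + c * y := by ring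
      rwa [this]
    · refine ⟨c, hc, Or.inr (Or.inl ?_)⟩
      have : z + y + c * x = y + z + c * x := by ring
      rwa [this]
  have key0 : G (B l (!r)) (A i (!r)) (A j r) := by
    have s1 := h.shift9B l (by omega)
    have s2 := h.shift9B (l + 9) (by omega)
    have s3 := h.shift9 (i - 9) (by omega)
    have s4 := h.shift9 (i - 18) (by omega)
    have e1 : l + 9 + 9 = l + 18 := by ring
    have e2 : i - 9 + 9 = i := by ring
    have e3 : i - 18 + 9 = i - 9 := by ring
    rw [e1] at s2
    rw [e2] at s3
    rw [e3] at s4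
    have t1 := h.signA i (!r) (by omega)
    have t2 := h.signB l (!r) (by omega)
    have t3 := h.signB (l + 9) (!r) (by omega)
    have t4 := h.signB (l + 18) (!r) (by omega)
    have t5 := h.signA (i - 9) (!r) (by omega)
    have t6 := h.signA (i - 18) (!r) (by omega)
    have hn : ¬ ((!r) = r ∧ r = (!r)) := by cases r <;> simp
    have r0 := hrel (h.rel i j l (!r) r (!r) hs hn)
    have r1 := hrel (h.rel (i - 9) j (l + 9) (!r) r (!r) (by omega) hn)
    have r2 := hrel (h.rel (i - 18) j (l + 18) (!r) r (!r) (by omega) hn)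
    exact key (x1 := B (l + 9) (!r)) (y1 := A (i - 9) (!r)) (x2 := B (l + 18) (!r))
      (y2 := A (i - 18) (!r)) (by omega) (by omega) (h.unitA j r) (by omega) (by omega)
      (by omega) (by omega) r0 r1 r2
  have t1 := h.signA i (!r) (by omega)
  have t2 := h.signB l (!r) (by omega)
  unfold G at *
  omega

/-- The two slopes agree. -/
theorem slope_eq : (27 : ℤ) ∣ A 4 true - A 1 true - (A 2 true - A (-1) true) := by
  have g1 := h.gAAB 1 (-4) 3 true (by norm_num) (by norm_num) (by norm_num)
  have g2 := h.gAAB 4 (-7) 3 true (by norm_num) (by norm_num) (by norm_num)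
  have d := h.diff2 (-7) (-1) (by norm_num) (by norm_num)
  norm_num at d
  have l1 := h.liftA 1 true (by norm_num)
  have l2 := h.liftA (-4) true (by norm_num)
  have l3 := h.liftA 4 true (by norm_num)
  have l4 := h.liftA (-7) true (by norm_num)
  have u := h.unitB 3 true
  unfold G at g1 g2
  omega

theorem slope1 : (27 : ℤ) ∣ A 4 true - A 1 true - 3 := by
  have se := h.slope_eq
  have g1 := h.gABA 1 3 (-4) true (by norm_num) (by norm_num) (by norm_num)
  have g2 := h.gABA' (-1) 3 (-2) true (by norm_num) (by norm_num) (by norm_num)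
  have b4 := h.tsum2 (-1) 5 (-4) (by norm_num) (by norm_num) (by norm_num)
  have b2 := h.tsum1 1 1 (-2) (by norm_num) (by norm_num) (by norm_num)
  have d := h.diff2 2 (-1) (by norm_num) (by norm_num)
  norm_num at d
  have l1 := h.liftA 1 true (by norm_num)
  have l2 := h.liftA (-1) true (by norm_num)
  have l3 := h.liftB (-4) true (by norm_num)
  have l4 := h.liftB (-2) true (by norm_num)
  have l5 := h.liftA 5 true (by norm_num)
  have u := h.unitA 3 true
  unfold G at g1 g2
  omega

theorem slope (i : ℤ) (hi : ¬ (3 : ℤ) ∣ i) : (27 : ℤ) ∣ A (i + 3) true - A i true - 3 := by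
  have se := h.slope_eq
  have s1 := h.slope1
  rcases (by omega : i % 3 = 1 ∨ i % 3 = 2) with hi | hi
  · have d := h.diff1 i 1 hi (by norm_num)
    norm_num at d
    omega
  · have d := h.diff2 i (-1) hi (by norm_num)
    norm_num at d
    omega

theorem lin (i : ℤ) (hi : ¬ (3 : ℤ) ∣ i) (u : ℤ) :
    (27 : ℤ) ∣ A (i + 3 * u) true - A i true - 3 * u := by
  induction u using Int.induction_on with
  | zero => simp
  | succ n ih =>
    have := h.slope (i + 3 * n) (by omega)
    have e : i + 3 * (n : ℤ) + 3 = i + 3 * ((n : ℤ) + 1) := by ring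
    rw [e] at this
    omega
  | pred n ih =>
    have := h.slope (i + 3 * (-(n : ℤ) - 1)) (by omega)
    have e : i + 3 * (-(n : ℤ) - 1) + 3 = i + 3 * (-(n : ℤ)) := by ring
    rw [e] at this
    omega

/-- The descent step. -/
theorem descend : ∃ e : ℤ, Good (fun i s => A (3 * i + 9 * e) s) (fun l s => B (3 * l - 18 * e) s) := by
  have l1 := h.liftA 1 true (by norm_num)
  have l2 := h.liftA (-1) true (by norm_num)
  obtain ⟨e, he⟩ : (9 : ℤ) ∣ A 1 true + A (-1) true := by omega
  refine ⟨e, ?_, ?_, ?_, ?_, ?_⟩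
  · intro i s; exact h.unitA _ _
  · intro i s; exact h.unitB _ _
  · intro i s hi
    have g := h.gABA 1 (3 * i + 9 * e) (-1 - (3 * i + 9 * e)) s (by norm_num) (by omega) (by ring)
    have b := h.tsum2 (-1) (-1 + 3 * (1 + i + 3 * e)) (-1 - (3 * i + 9 * e)) (by norm_num) (by omega)
      (by ring)
    have a := h.lin (-1) (by norm_num) (1 + i + 3 * e)
    have u := h.unitA (3 * i + 9 * e) s
    unfold G at g
    show (9 : ℤ) ∣ A (3 * i + 9 * e) s - i
    omega
  · intro l s hl
    have g := h.gAAB 1 (-1 + 3 * (-l + 6 * e)) (3 * l - 18 * e) s (by norm_num) (by omega) (by ring)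
    have a := h.lin (-1) (by norm_num) (-l + 6 * e)
    have u := h.unitB (3 * l - 18 * e) s
    unfold G at g
    show (9 : ℤ) ∣ B (3 * l - 18 * e) s - l
    omega
  · intro i j l s t r hs hn
    exact h.rel _ _ _ _ _ _ (by linarith) hn

end Good

/-- No periodic good pair. -/
theorem not_periodic (R : ℕ) : ∀ A B : ℤ → Bool → ℤ, Good A B →
    (∀ i s, A (i + 3 ^ R) s = A i s) → False := by
  induction R with
  | zero =>
    intro A B h hp
    have h9 := h.shift9 1 (by norm_num)
    have e : A 10 true = A 1 true := by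
      have h1 := hp 1 true
      have h2 := hp 2 true
      have h3 := hp 3 true
      have h4 := hp 4 true
      have h5 := hp 5 true
      have h6 := hp 6 true
      have h7 := hp 7 true
      have h8 := hp 8 true
      have h9 := hp 9 true
      norm_num at *
      omega
    norm_num at h9
    omega
  | succ R ih =>
    intro A B h hp
    obtain ⟨e, he⟩ := h.descend
    refine ih _ _ he ?_
    intro i s
    have := hp (3 * i + 9 * e) s
    have e1 : 3 * (i + 3 ^ R) + 9 * e = 3 * i + 9 * e + 3 ^ (R + 1) := by ring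
    show A (3 * (i + 3 ^ R) + 9 * e) s = A (3 * i + 9 * e) s
    rw [e1, this]

end Pool.Agent.H127_AIP
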