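import Mathlib
import Pool.Agent.H127_AIP.Defs
import Pool.Agent.H127_AIP.Step

/-!
The counterexample for MP_981e77_lc: integers coloured by their residue modulo 27 and by the three leading
ternary digits of `4x - 1` and of `4x - 2`.
-/

namespace Pool.Agent.H127_AIP

/-- The part of `n` prime to `3`. -/
def up (n : ℤ) : ℤ := n / 3 ^ (padicValInt 3 n)

theorem up_spec (n : ℤ) : n = 3 ^ (padicValInt 3 n) * up n := by
  unfold up
  have h : (3 : ℤ) ^ (padicValInt 3 n) ∣ n := by
    have := (padicValInt_dvd_iff (p := 3) (padicValInt 3 n) n).2 (Or.inr le_rfl)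
    exact_mod_cast this
  exact (Int.mul_ediv_cancel' h).symm

theorem up_not_dvd {n : ℤ} (hn : n ≠ 0) : ¬ (3 : ℤ) ∣ up n := by
  intro h
  have h1 := up_spec n
  obtain ⟨k, hk⟩ := h
  have h2 : (3 : ℤ) ^ (padicValInt 3 n + 1) ∣ n := by
    refine ⟨k, ?_⟩
    rw [pow_succ]
    calc n = 3 ^ (padicValInt 3 n) * up n := h1
      _ = 3 ^ (padicValInt 3 n) * (3 * k) := by rw [hk]
      _ = _ := by ring
  have h3 := (padicValInt_dvd_iff (p := 3) (padicValInt 3 n + 1) n).1 (by exact_mod_cast h2)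
  rcases h3 with h3 | h3
  · exact hn h3
  · omega

/-- Uniqueness of the decomposition. -/
theorem up_unique {n u : ℤ} {v : ℕ} (h : n = 3 ^ v * u) (hu : ¬ (3 : ℤ) ∣ u) : up n = u := by
  have hn : n ≠ 0 := by
    rintro rfl
    have h3 : (3 : ℤ) ^ v ≠ 0 := by positivity
    rcases mul_eq_zero.1 h.symm with h' | h'
    · exact h3 h'
    · exact hu (h' ▸ dvd_zero _)
  have h1 := up_spec n
  have h2 := up_not_dvd hn
  set a := padicValInt 3 n with ha
  rcases lt_trichotomy a v with hlt | heq | hgt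
  · obtain ⟨d, rfl⟩ := Nat.exists_eq_add_of_lt hlt
    exfalso
    apply h2
    have : (3 : ℤ) ^ a * up n = 3 ^ a * (3 ^ (d + 1) * u) := by
      rw [← h1, h]; ring
    have h3 := mul_left_cancel₀ (by positivity) this
    rw [h3]
    exact ⟨3 ^ d * u, by ring⟩
  · rw [heq] at h1
    have : (3 : ℤ) ^ v * up n = 3 ^ v * u := by rw [← h1, h]
    exact mul_left_cancel₀ (by positivity) this
  · obtain ⟨d, hd⟩ := Nat.exists_eq_add_of_lt hgt
    exfalso
    apply hu
    have : (3 : ℤ) ^ v * u = 3 ^ v * (3 ^ (d + 1) * up n) := by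
      rw [← h]
      rw [hd] at h1
      linear_combination h1
    have h3 := mul_left_cancel₀ (by positivity) this
    rw [h3]
    exact ⟨3 ^ d * up n, by ring⟩

/-- The relation between the prime-to-3 parts of three nonzero integers with sum zero. -/
theorem up_sum {X Y Z : ℤ} (hX : X ≠ 0) (hY : Y ≠ 0) (hZ : Z ≠ 0) (h : X + Y + Z = 0) :
    ∃ m : ℕ, up X + up Y + 3 ^ m * up Z = 0 ∨ up X + up Z + 3 ^ m * up Y = 0 ∨
      up Y + up Z + 3 ^ m * up X = 0 := by
  have sX := up_spec X
  have sY := up_spec Y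
  have sZ := up_spec Z
  have nX := up_not_dvd hX
  have nY := up_not_dvd hY
  have nZ := up_not_dvd hZ
  generalize padicValInt 3 X = a at sX
  generalize padicValInt 3 Y = b at sY
  generalize padicValInt 3 Z = c at sZ
  generalize up X = x at *
  generalize up Y = y at *
  generalize up Z = z at *
  subst sX sY sZ
  -- general fact
  have key : ∀ (x y z : ℤ) (a b c : ℕ), ¬ (3 : ℤ) ∣ x → ¬ (3 : ℤ) ∣ y → ¬ (3 : ℤ) ∣ z →
      3 ^ a * x + 3 ^ b * y + 3 ^ c * z = 0 → a ≤ b → b ≤ c → ∃ m : ℕ, x + y + 3 ^ m * z = 0 := by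
    intro x y z a b c hx hy hz h hab hbc
    obtain ⟨d, rfl⟩ := Nat.exists_eq_add_of_le hab
    obtain ⟨e, rfl⟩ := Nat.exists_eq_add_of_le hbc
    have h1 : (3 : ℤ) ^ a * (x + 3 ^ d * (y + 3 ^ e * z)) = 0 := by
      rw [← h]; ring
    have h2 : x + 3 ^ d * (y + 3 ^ e * z) = 0 := by
      rcases mul_eq_zero.1 h1 with h' | h'
      · exact absurd h' (by positivity)
      · exact h'
    cases d with
    | zero => exact ⟨e, by rw [← h2]; ring⟩
    | succ d =>
      exfalso
      apply hx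
      refine ⟨-(3 ^ d * (y + 3 ^ e * z)), ?_⟩
      linear_combination h2
  rcases le_total a b with hab | hab <;> rcases le_total b c with hbc | hbc <;>
    rcases le_total a c with hac | hac
  · obtain ⟨m, hm⟩ := key x y z a b c nX nY nZ h hab hbc
    exact ⟨m, Or.inl hm⟩
  · obtain ⟨m, hm⟩ := key x y z a b c nX nY nZ h hab hbc
    exact ⟨m, Or.inl hm⟩
  · obtain ⟨m, hm⟩ := key x z y a c b nX nZ nY (by linarith) hac hbc
    exact ⟨m, Or.inr (Or.inl hm)⟩
  · obtain ⟨m, hm⟩ := key z x y c a b nZ nX nY (by linarith) hac hab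
    exact ⟨m, Or.inr (Or.inl (by linarith))⟩
  · obtain ⟨m, hm⟩ := key y x z b a c nY nX nZ (by linarith) hab hac
    exact ⟨m, Or.inl (by linarith)⟩
  · obtain ⟨m, hm⟩ := key y z x b c a nY nZ nX (by linarith) hbc hac
    exact ⟨m, Or.inr (Or.inr (by linarith))⟩
  · obtain ⟨m, hm⟩ := key z y x c b a nZ nY nX (by linarith) hbc hab
    exact ⟨m, Or.inr (Or.inr (by linarith))⟩
  · obtain ⟨m, hm⟩ := key z y x c b a nZ nY nX (by linarith) hbc hab
    exact ⟨m, Or.inr (Or.inr (by linarith))⟩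

theorem pow_mod27 (m : ℕ) : ∃ c : ℤ, (c = 1 ∨ c = 3 ∨ c = 9 ∨ c = 0) ∧ (27 : ℤ) ∣ 3 ^ m - c := by
  rcases m with _ | _ | _ | m
  · exact ⟨1, by simp, by norm_num⟩
  · exact ⟨3, by simp, by norm_num⟩
  · exact ⟨9, by simp, by norm_num⟩
  · refine ⟨0, by simp, 3 ^ m, by ring⟩

theorem hrel_up {X Y Z x y z : ℤ} (hX : X ≠ 0) (hY : Y ≠ 0) (hZ : Z ≠ 0) (h : X + Y + Z = 0)
    (hx : (27 : ℤ) ∣ x - up X) (hy : (27 : ℤ) ∣ y - up Y) (hz : (27 : ℤ) ∣ z - up Z) : Hrel x y z := by
  obtain ⟨m, hm⟩ := up_sum hX hY hZ h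
  obtain ⟨c, hc, hmc⟩ := pow_mod27 m
  refine ⟨c, hc, ?_⟩
  obtain ⟨k, hk⟩ := hmc
  obtain ⟨kx, hkx⟩ := hx
  obtain ⟨ky, hky⟩ := hy
  obtain ⟨kz, hkz⟩ := hz
  rcases hm with hm | hm | hm
  · left
    refine ⟨kx + ky + c * kz - k * up Z, ?_⟩
    linear_combination hkx + hky + c * hkz + hm - up Z * hk
  · right; left
    refine ⟨kx + kz + c * ky - k * up Y, ?_⟩
    linear_combination hkx + hkz + c * hky + hm - up Y * hk
  · right; right
    refine ⟨ky + kz + c * kx - k * up X, ?_⟩
    linear_combination hky + hkz + c * hkx + hm - up X * hk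

/-- The colour of an integer `x`: its residue modulo `27` and the residues modulo `27` of the parts prime to `3`
of `4 x - 1` and `4 x - 2`. -/
def colour (x : ℤ) : ZMod 27 × ZMod 27 × ZMod 27 := ((x : ZMod 27), (up (4 * x - 1) : ZMod 27), (up (4 * x - 2) : ZMod 27))

/-- The counterexample. -/
def template : Ternary where
  dom := ZMod 27 × ZMod 27 × ZMod 27
  rel := {t | ∃ u : Fin 3 → ℤ, u 0 + u 1 + u 2 = 1 ∧ ∀ i, t i = colour (u i)}

theorem colour_eq {x y : ℤ} (h : colour x = colour y) :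
    (27 : ℤ) ∣ x - y ∧ (27 : ℤ) ∣ up (4 * x - 1) - up (4 * y - 1) ∧
      (27 : ℤ) ∣ up (4 * x - 2) - up (4 * y - 2) := by
  unfold colour at h
  simp only [Prod.mk.injEq] at h
  obtain ⟨h1, h2, h3⟩ := h
  refine ⟨?_, ?_, ?_⟩
  · have := (ZMod.intCast_eq_intCast_iff_dvd_sub _ _ 27).1 h1.symm
    exact_mod_cast this
  · have := (ZMod.intCast_eq_intCast_iff_dvd_sub _ _ 27).1 h2.symm
    exact_mod_cast this
  · have := (ZMod.intCast_eq_intCast_iff_dvd_sub _ _ 27).1 h3.symm
    exact_mod_cast this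

theorem finite_template : Finite template.dom :=
  inferInstanceAs (Finite (ZMod 27 × ZMod 27 × ZMod 27))

theorem intStr_template : HomTo intStr template :=
  ⟨colour, fun t ht => ⟨t, ht, fun _ => rfl⟩⟩

theorem HomTo.trans {X Y Z : Ternary} (h1 : HomTo X Y) (h2 : HomTo Y Z) : HomTo X Z := by
  obtain ⟨f, hf⟩ := h1
  obtain ⟨g, hg⟩ := h2
  exact ⟨fun x => g (f x), fun t ht => hg _ (hf t ht)⟩

theorem oneInThree_intStr : HomTo oneInThree intStr := by
  classical
  let g : Fin 2 → ℤ := fun x => if x = 1 then (1 : ℤ) else 0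
  refine ⟨g, ?_⟩
  intro t ht
  show g (t 0) + g (t 1) + g (t 2) = 1
  have g1 : ∀ x : Fin 2, x = 1 → g x = 1 := fun x hx => if_pos hx
  have g0 : ∀ x : Fin 2, ¬ x = 1 → g x = 0 := fun x hx => if_neg hx
  rcases oneInThree_cases ⟨t, ht⟩ with ⟨h0, h1, h2⟩ | ⟨h0, h1, h2⟩ | ⟨h0, h1, h2⟩
  · rw [g1 _ h0, g0 _ h1, g0 _ h2]; norm_num
  · rw [g0 _ h0, g1 _ h1, g0 _ h2]; norm_num
  · rw [g0 _ h0, g0 _ h1, g1 _ h2]; norm_num

/-- A function `f : ℤ → Bool → ZMod 27` satisfying the equations is affine. -/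
theorem affine (f : ℤ → Bool → ZMod 27)
    (hf : ∀ x y z s t r, x + y + z = 1 → ¬ (s = t ∧ t = r) → f x s + f y t + f z r = 1) :
    (∀ x s, f x s = (1 - 3 * f 0 true) * (x : ZMod 27) + f 0 true) := by
  have hs : ∀ x, f x false = f x true := by
    intro x
    have h1 := hf x 0 (1 - x) false false true (by ring) (by simp)
    have h2 := hf x 0 (1 - x) true false true (by ring) (by simp)
    have : f x false + f 0 false + f (1 - x) true = f x true + f 0 false + f (1 - x) true := by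
      rw [h1, h2]
    simpa using this
  have hs' : ∀ x s, f x s = f x true := by
    intro x s; cases s
    · exact hs x
    · rfl
  have hsum : ∀ x y z : ℤ, x + y + z = 1 → f x true + f y true + f z true = 1 := by
    intro x y z h
    have := hf x y z true true false h (by simp)
    rwa [hs z] at this
  have h01 : f 1 true = 1 - 2 * f 0 true := by
    have := hsum 1 0 0 (by norm_num)
    linear_combination this
  have hstep : ∀ x : ℤ, f (x + 1) true = f x true + (1 - 3 * f 0 true) := by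
    intro x
    have h1 := hsum (x + 1) 0 (-x) (by ring)
    have h2 := hsum x 1 (-x) (by ring)
    linear_combination h1 - h2 + h01
  intro x s
  rw [hs']
  induction x using Int.induction_on with
  | zero => simp
  | succ n ih =>
    rw [hstep, ih]
    push_cast
    ring
  | pred n ih =>
    have := hstep (-(n : ℤ) - 1)
    rw [sub_add_cancel, ih] at this
    push_cast at this ⊢
    linear_combination -this

/-- The residue of an integer as an element of `E_{3^p}`. -/
def res (p : ℕ) (x : ℤ) : Fin (3 ^ p) :=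
  ⟨(x % 3 ^ p).toNat, by
    have hposZ : (0 : ℤ) < 3 ^ p := by positivity
    have h1 := Int.emod_nonneg x hposZ.ne'
    have h2 := Int.emod_lt_of_pos x hposZ
    have h3 : ((x % 3 ^ p).toNat : ℤ) < ((3 ^ p : ℕ) : ℤ) := by
      rw [Int.toNat_of_nonneg h1]; push_cast; exact h2
    exact_mod_cast h3⟩

/-- A sign as an element of `NAE`. -/
def sg (s : Bool) : Fin 2 := if s then 1 else 0

theorem res_mem (p : ℕ) {x y z : ℤ} (h : x + y + z = 1) :
    (![res p x, res p y, res p z] : Fin 3 → Fin (3 ^ p)) ∈ (E (3 ^ p)).rel := by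
  have hposZ : (0 : ℤ) < 3 ^ p := by positivity
  show (x % 3 ^ p).toNat + (y % 3 ^ p).toNat + (z % 3 ^ p).toNat ≡ 1 [MOD 3 ^ p]
  rw [← Int.natCast_modEq_iff]
  push_cast [Int.toNat_of_nonneg (Int.emod_nonneg x hposZ.ne'),
    Int.toNat_of_nonneg (Int.emod_nonneg y hposZ.ne'), Int.toNat_of_nonneg (Int.emod_nonneg z hposZ.ne')]
  have e : x % 3 ^ p + y % 3 ^ p + z % 3 ^ p ≡ x + y + z [ZMOD 3 ^ p] :=
    ((Int.mod_modEq x _).add (Int.mod_modEq y _)).add (Int.mod_modEq z _)
  rw [h] at e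
  exact e

theorem sg_mem {s t r : Bool} (h : ¬ (s = t ∧ t = r)) :
    (![sg s, sg t, sg r] : Fin 3 → Fin 2) ∈ nae.rel := by
  show (![sg s, sg t, sg r] : Fin 3 → Fin 2) ≠ ![0, 0, 0] ∧ (![sg s, sg t, sg r] : Fin 3 → Fin 2) ≠ ![1, 1, 1]
  revert h
  revert s t r
  decide

/-- The abstract lift of a homomorphism. -/
theorem no_hom (p : ℕ) : ¬ HomTo ((E (3 ^ p)).prod nae) template := by
  rintro ⟨h, hh⟩
  -- periodic lift
  let F : ℤ → Bool → ZMod 27 × ZMod 27 × ZMod 27 := fun x s => h (res p x, sg s)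
  have hFper : ∀ x k s, F (x + 3 ^ p * k) s = F x s := by
    intro x k s
    have : res p (x + 3 ^ p * k) = res p x := by
      unfold res
      simp
    exact congrArg (fun r => h (r, sg s)) this
  have hrel : ∀ x y z s t r, x + y + z = 1 → ¬ (s = t ∧ t = r) →
      ∃ u v w : ℤ, u + v + w = 1 ∧ F x s = colour u ∧ F y t = colour v ∧ F z r = colour w := by
    intro x y z s t r hsum hn
    have := hh ![(res p x, sg s), (res p y, sg t), (res p z, sg r)] ?_
    · obtain ⟨u, hu, hc⟩ := this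
      exact ⟨u 0, u 1, u 2, hu, hc 0, hc 1, hc 2⟩
    · have e1 : (fun i => ((![(res p x, sg s), (res p y, sg t), (res p z, sg r)] :
          Fin 3 → Fin (3 ^ p) × Fin 2) i).1) = ![res p x, res p y, res p z] := by
        funext i
        fin_cases i <;> rfl
      have e2 : (fun i => ((![(res p x, sg s), (res p y, sg t), (res p z, sg r)] :
          Fin 3 → Fin (3 ^ p) × Fin 2) i).2) = ![sg s, sg t, sg r] := by
        funext i
        fin_cases i <;> rfl
      refine ⟨?_, ?_⟩
      · show (fun i => ((![(res p x, sg s), (res p y, sg t), (res p z, sg r)] :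
          Fin 3 → Fin (3 ^ p) × Fin 2) i).1) ∈ (E (3 ^ p)).rel
        rw [e1]
        exact res_mem p hsum
      · show (fun i => ((![(res p x, sg s), (res p y, sg t), (res p z, sg r)] :
          Fin 3 → Fin (3 ^ p) × Fin 2) i).2) ∈ nae.rel
        rw [e2]
        exact sg_mem hn
  -- the residues modulo 27
  have haff := affine (fun x s => (F x s).1) (by
    intro x y z s t r hsum hn
    obtain ⟨u, v, w, huvw, h1, h2, h3⟩ := hrel x y z s t r hsum hn
    simp only [h1, h2, h3, colour]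
    have : ((u + v + w : ℤ) : ZMod 27) = 1 := by rw [huvw]; norm_num
    push_cast at this
    exact this)
  have h27 : (27 : ZMod 27) = 0 := by decide
  obtain ⟨b, hb⟩ : ∃ b : ℤ, (b : ZMod 27) = (F 0 true).1 := ZMod.intCast_surjective _
  have haff' : ∀ x s, (F x s).1 = (1 - 3 * (b : ZMod 27)) * (x : ZMod 27) + (b : ZMod 27) := by
    intro x s
    rw [hb]
    exact haff x s
  clear haff
  -- every colour used comes from an integer
  have hcol : ∀ x s, ∃ w : ℤ, colour w = F x s := by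
    intro x s
    obtain ⟨u, v, w, -, h1, -, -⟩ := hrel x 0 (1 - x) s (!s) (!s) (by ring) (by cases s <;> simp)
    exact ⟨u, h1.symm⟩
  classical
  let W : ZMod 27 × ZMod 27 × ZMod 27 → ℤ := fun c => if hc : ∃ w : ℤ, colour w = c then hc.choose else 0
  have hW : ∀ x s, colour (W (F x s)) = F x s := by
    intro x s
    have hc := hcol x s
    simp only [W, dif_pos hc]
    exact hc.choose_spec
  clear_value F
  clear_value W
  -- coordinates near the two special points
  obtain ⟨a, ha⟩ : ∃ a : ℤ, a = 1 + 3 * b + 9 * b ^ 2 := ⟨_, rfl⟩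
  let X : ℤ → ℤ := fun i => a * (7 - b) + 21 * a * i
  let Z : ℤ → ℤ := fun l => 1 - 2 * a * (7 - b) + 21 * a * l
  have hXZ : ∀ i j l, i + j + l = 0 → X i + X j + Z l = 1 := by
    intro i j l hs
    simp only [X, Z]
    linear_combination (21 * a) * hs
  have hWX : ∀ i s, (27 : ℤ) ∣ W (F (X i) s) - (7 + 21 * i) := by
    intro i s
    have h1 : (W (F (X i) s) : ZMod 27) = (F (X i) s).1 := by
      have := congrArg Prod.fst (hW (X i) s)
      simpa [colour] using this
    have h2 : ((W (F (X i) s) : ℤ) : ZMod 27) = ((7 + 21 * i : ℤ) : ZMod 27) := by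
      rw [h1, haff']
      simp only [X, ha]
      push_cast
      linear_combination (-(b : ZMod 27) ^ 3 * (7 - (b : ZMod 27) + 21 * (i : ZMod 27))) * h27
    have := (ZMod.intCast_eq_intCast_iff_dvd_sub _ _ 27).1 h2.symm
    exact_mod_cast this
  have hWZ : ∀ l s, (27 : ℤ) ∣ W (F (Z l) s) - (-13 + 21 * l) := by
    intro l s
    have h1 : (W (F (Z l) s) : ZMod 27) = (F (Z l) s).1 := by
      have := congrArg Prod.fst (hW (Z l) s)
      simpa [colour] using this
    have h2 : ((W (F (Z l) s) : ℤ) : ZMod 27) = ((-13 + 21 * l : ℤ) : ZMod 27) := by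
      rw [h1, haff']
      simp only [Z, ha]
      push_cast
      linear_combination (-(b : ZMod 27) ^ 3 * (-2 * (7 - (b : ZMod 27)) + 21 * (l : ZMod 27))) * h27
    have := (ZMod.intCast_eq_intCast_iff_dvd_sub _ _ 27).1 h2.symm
    exact_mod_cast this
  refine not_periodic p (fun i s => up (4 * W (F (X i) s) - 1)) (fun l s => up (4 * W (F (Z l) s) - 2))
    ⟨?_, ?_, ?_, ?_, ?_⟩ ?_
  · intro i s; exact up_not_dvd (by omega)
  · intro i s; exact up_not_dvd (by omega)
  · intro i s hi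
    obtain ⟨k, hk⟩ := hWX i s
    have : up (4 * W (F (X i) s) - 1) = 9 + 28 * i + 36 * k := by
      refine up_unique (v := 1) ?_ (by omega)
      rw [pow_one]
      linarith
    show (9 : ℤ) ∣ up (4 * W (F (X i) s) - 1) - i
    rw [this]
    omega
  · intro l s hl
    obtain ⟨k, hk⟩ := hWZ l s
    have : up (4 * W (F (Z l) s) - 2) = -18 + 28 * l + 36 * k := by
      refine up_unique (v := 1) ?_ (by omega)
      rw [pow_one]
      linarith
    show (9 : ℤ) ∣ up (4 * W (F (Z l) s) - 2) - l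
    rw [this]
    omega
  · intro i j l s t r hs hn
    obtain ⟨u, v, w, huvw, h1, h2, h3⟩ := hrel (X i) (X j) (Z l) s t r (hXZ i j l hs) hn
    have c1 := (colour_eq ((hW (X i) s).trans h1)).2.1
    have c2 := (colour_eq ((hW (X j) t).trans h2)).2.1
    have c3 := (colour_eq ((hW (Z l) r).trans h3)).2.2
    exact hrel_up (X := 4 * u - 1) (Y := 4 * v - 1) (Z := 4 * w - 2) (by omega) (by omega) (by omega)
      (by linarith) c1 c2 c3
  · intro i s
    have e : X (i + 3 ^ p) = X i + 3 ^ p * (21 * a) := by simp only [X]; ring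
    show up (4 * W (F (X (i + 3 ^ p)) s) - 1) = up (4 * W (F (X i) s) - 1)
    rw [e, hFper]

end Pool.Agent.H127_AIP
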